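import Pool.Agent.Helper27.VF.Goals

set_option autoImplicit false

namespace Pool.Agent.Helper73.VF

open Pool.Agent.Helper27.VF

universe u

theorem sep_nonempty {A W : Type u} [Group A] [MulAction A W] {G G₀ : SimpleGraph W} {w : W}
    {p : Ultrafilter W} (h : Stg A G G₀ w p) {c : Set W × Set W} (hc : IsCut G c) {a b : A}
    (hd : Dis p c a b) : (sep c).Nonempty := by
  by_contra hne
  rw [Set.not_nonempty_iff_eq_empty] at hne
  obtain ⟨x, hx⟩ := inn_nonempty h hd.1
  obtain ⟨y, hy⟩ := inn_nonempty h hd.2
  have key : ∀ z, G₀.Reachable x z → z ∈ c.1 := by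
    intro z hz
    rw [SimpleGraph.reachable_iff_reflTransGen] at hz
    induction hz with
    | refl => exact hx
    | tail _ hbc ih =>
      rename_i b' c' _
      by_contra hcon
      have h1 : c' ∉ sep c := by rw [hne]; exact Set.notMem_empty _
      rw [mem_sep] at h1
      have h2 : c' ∈ c.2 := by
        by_contra h3
        exact h1 ⟨hcon, h3⟩
      exact hc.no _ ih _ h2 (h.le hbc)
  exact hc.disj y (key y (h.conn.preconnected x y)) hy

theorem frd (hloc : LocStmt.{u}) (horc : OrcStmt.{u}) : FrdStmt.{u} := by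
  intro A W _ _ G G₀ w p h k hk htf
  have hL := hloc A W G G₀ w p h k hk
  have hO := horc A W G G₀ w p h k hk
  constructor
  · obtain ⟨𝓕', hfin, hcov⟩ := hL.2
    classical
    let g0 : Set W × Set W → A := fun f =>
      if hf : ∃ g : A, tr g f ∈ DD A G p k then hf.choose else 1
    have hg0 : ∀ f, (∃ g : A, tr g f ∈ DD A G p k) → tr (g0 f) f ∈ DD A G p k := by
      intro f hf
      have : g0 f = hf.choose := dif_pos hf
      rw [this]
      exact hf.choose_spec
    refine ⟨(fun f => tr (g0 f) f) '' {f | f ∈ 𝓕' ∧ ∃ g : A, tr g f ∈ DD A G p k},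
      (hfin.subset fun f hf => hf.1).image _, ?_, ?_⟩
    · rintro _ ⟨f, ⟨_, hf⟩, rfl⟩
      exact hg0 f hf
    · intro d hd
      obtain ⟨f, hf, g, hg⟩ := hcov d hd.1
      have hex : ∃ g : A, tr g f ∈ DD A G p k := ⟨g, by rw [← hg]; exact hd⟩
      have e : d = tr (g * (g0 f)⁻¹) (tr (g0 f) f) := by
        rw [tr_tr, inv_mul_cancel_right]
        exact hg
      refine ⟨tr (g0 f) f, ⟨f, ⟨hf, hex⟩, rfl⟩, g * (g0 f)⁻¹, ?_, e⟩
      apply hO _ _ (hg0 f hex)
      rw [← e]
      exact hd
  · intro g d hd hgd
    obtain ⟨hcut, -, a, b, hab⟩ := hd.1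
    obtain ⟨x, hx⟩ := sep_nonempty h hcut hab
    have hstep : ∀ y ∈ sep d, g • y ∈ sep d := by
      intro y hy
      have : g • y ∈ sep (tr g d) := by
        rw [mem_sep_tr, inv_smul_smul]
        exact hy
      rwa [hgd] at this
    have hpow : ∀ n : ℕ, g ^ n • x ∈ sep d := by
      intro n
      induction n with
      | zero => simpa using hx
      | succ n ih =>
        rw [pow_succ', mul_smul]
        exact hstep _ ih
    have hnotinj : ¬ Function.Injective (fun n : ℕ => g ^ n • x) := by
      intro hinj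
      have : (Set.range fun n : ℕ => g ^ n • x).Infinite := Set.infinite_range_of_injective hinj
      apply this
      apply hcut.fin.subset
      rintro _ ⟨n, rfl⟩
      exact hpow n
    unfold Function.Injective at hnotinj
    push Not at hnotinj
    obtain ⟨m, n, hmn, hne⟩ := hnotinj
    have key : ∀ m n : ℕ, m < n → g ^ m • x = g ^ n • x → g = 1 := by
      intro m n hlt heq
      have h1 : g ^ (n - m) • x = x := by
        have e1 : g ^ n = g ^ m * g ^ (n - m) := by rw [← pow_add]; congr 1; omega
        rw [e1, mul_smul] at heq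
        exact (smul_left_cancel (g ^ m) heq).symm
      exact htf g (n - m) (by omega) (h.free _ _ h1)
    rcases lt_or_gt_of_ne hne with hlt | hlt
    · exact key m n hlt hmn
    · exact key n m hlt hmn.symm

end Pool.Agent.Helper73.VF
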